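import Pool.Agent.Helper79.LG.CR

/-!
# Project LG (MP_d01c92_ag), packet SPEC
-/

universe u v

open scoped BigOperators

open Pool.Agent.Helper64.IG

namespace Pool.Agent.Helper53.LG

open Pool.Agent.Helper79.LG

/-- the variables -/
abbrev Vr (m q : ℕ) : Type := (Fin q × Fin (m + 1)) ⊕ Unit ⊕ Fin (m + 1)

/-- the generic matrix -/
noncomputable def EE (k : Type v) [Field k] (m q : ℕ) (i : Fin (q + 1)) (x : Ix (m + 1) (q + 1)) :
    MvPolynomial (Vr m q) k :=
  Fin.cases (motive := fun _ => MvPolynomial (Vr m q) k)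
    (Sum.elim (fun j => MvPolynomial.X (Sum.inr (Sum.inr j)))
      (fun s => if s = 0 then MvPolynomial.X (Sum.inr (Sum.inl ())) else 0) x)
    (fun i => Sum.elim (fun j => MvPolynomial.X (Sum.inl (i, j)))
      (fun s => if s = i.succ then 1 else 0) x) i

/-- the coordinates of the generic decomposable form -/
noncomputable def GG (k : Type v) [Field k] (m q : ℕ) (b : Fin (q + 1) → Ix (m + 1) (q + 1)) :
    MvPolynomial (Vr m q) k :=
  Matrix.det (fun i j => EE k m q i (b j) : Matrix (Fin (q + 1)) (Fin (q + 1)) _)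

/-- the point of a form -/
noncomputable def pt {K : Type u} [Field K] {m q : ℕ} (u : Form K (m + 1) (q + 1)) :
    Vr m q → K :=
  Sum.elim (fun ij : Fin q × Fin (m + 1) =>
        u (Function.update Sum.inr ij.1.succ (Sum.inl ij.2)) / u Sum.inr)
      (Sum.elim (fun _ : Unit => u Sum.inr)
        (fun j : Fin (m + 1) => u (Function.update Sum.inr 0 (Sum.inl j))))

theorem aeval_GG {k : Type v} {K : Type u} [Field k] [Field K] [Algebra k K] {m q : ℕ}
    (w : Vr m q → K) (b : Fin (q + 1) → Ix (m + 1) (q + 1)) :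
    MvPolynomial.aeval w (GG k m q b) =
      Matrix.det (fun i j => MvPolynomial.aeval w (EE k m q i (b j)) :
        Matrix (Fin (q + 1)) (Fin (q + 1)) K) := by
  unfold GG
  rw [AlgHom.map_det]
  rfl

theorem key {k : Type v} {K : Type u} [Field k] [Field K] [Algebra k K] {m q : ℕ}
    (u : Form K (m + 1) (q + 1)) (hu : IsDec u) (h0 : u Sum.inr ≠ 0)
    (b : Fin (q + 1) → Ix (m + 1) (q + 1)) :
    MvPolynomial.aeval (pt u) (GG k m q b) = u b := by
  rw [aeval_GG, cr K (m + 1) (q + 1) u hu Sum.inr h0 b]
  have h1 := Matrix.det_mul_column (Fin.cons (u Sum.inr) (fun _ => 1) : Fin (q + 1) → K)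
    (fun i j => u (Function.update Sum.inr i (b j)) / u Sum.inr :
      Matrix (Fin (q + 1)) (Fin (q + 1)) K)
  rw [Fin.prod_univ_succ] at h1
  simp only [Fin.cons_zero, Fin.cons_succ, Finset.prod_const_one, mul_one] at h1
  rw [← h1]
  congr 1
  funext i j
  rw [Matrix.of_apply]
  refine Fin.cases ?_ (fun i => ?_) i
  · rw [Fin.cons_zero, mul_div_cancel₀ _ h0]
    rcases b j with x | s
    · simp [EE, pt]
    · simp only [EE, Fin.cases_zero, Sum.elim_inr]
      by_cases hs : s = 0
      · subst hs
        rw [if_pos rfl, MvPolynomial.aeval_X]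
        have : Function.update (Sum.inr : Fin (q + 1) → Ix (m + 1) (q + 1)) 0 (Sum.inr 0) =
          Sum.inr := Function.update_eq_self 0 _
        rw [this]
        rfl
      · rw [if_neg hs, map_zero]
        refine (rep_zero hu (i := 0) (j := s) (Ne.symm hs) ?_).symm
        rw [Function.update_self, Function.update_of_ne hs]
  · rw [Fin.cons_succ, one_mul]
    rcases b j with x | s
    · simp [EE, pt]
    · simp only [EE, Fin.cases_succ, Sum.elim_inr]
      by_cases hs : s = i.succ
      · subst hs
        rw [if_pos rfl, map_one]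
        have : Function.update (Sum.inr : Fin (q + 1) → Ix (m + 1) (q + 1)) i.succ
          (Sum.inr i.succ) = Sum.inr := Function.update_eq_self i.succ _
        rw [this, div_self h0]
      · rw [if_neg hs, map_zero]
        rw [rep_zero hu (i := i.succ) (j := s) (Ne.symm hs) (by
          rw [Function.update_self, Function.update_of_ne hs]), zero_div]

theorem key0 {k : Type v} {K : Type u} [Field k] [Field K] [Algebra k K] {m q : ℕ}
    (b : Fin (q + 1) → Ix (m + 1) (q + 1)) :
    MvPolynomial.aeval (fun _ : Vr m q => (0 : K)) (GG k m q b) = 0 := by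
  rw [aeval_GG]
  refine Matrix.det_eq_zero_of_row_eq_zero 0 fun j => ?_
  rcases b j with x | s
  · simp [EE]
  · simp only [EE, Fin.cases_zero, Sum.elim_inr]
    by_cases hs : s = 0
    · rw [if_pos hs, MvPolynomial.aeval_X]
    · rw [if_neg hs, map_zero]

theorem spec : G_SPEC.{u, v} := by
  intro k K _ _ _ m q u u' hu hu' h0 h0' hind g hg
  have h1 : MvPolynomial.aeval u g =
      MvPolynomial.aeval (pt u) (MvPolynomial.bind₁ (GG k m q) g) := by
    rw [MvPolynomial.aeval_bind₁]
    congr 2
    funext b
    exact (key u hu h0 b).symm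
  rw [h1] at hg
  have h2 : MvPolynomial.bind₁ (GG k m q) g = 0 := hind.eq_zero_of_aeval_eq_zero _ hg
  rcases h0' with h0' | h0'
  · have h3 : MvPolynomial.aeval u' g =
        MvPolynomial.aeval (fun _ : Vr m q => (0 : K)) (MvPolynomial.bind₁ (GG k m q) g) := by
      rw [MvPolynomial.aeval_bind₁]
      congr 2
      funext b
      rw [key0, h0']
      rfl
    rw [h3, h2, map_zero]
  · have h3 : MvPolynomial.aeval u' g =
        MvPolynomial.aeval (pt u') (MvPolynomial.bind₁ (GG k m q) g) := by
      rw [MvPolynomial.aeval_bind₁]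
      congr 2
      funext b
      exact (key u' hu' h0' b).symm
    rw [h3, h2, map_zero]

end Pool.Agent.Helper53.LG
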